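import Pool.Agent.W593.IR.Stm

set_option autoImplicit false

namespace Pool.Agent.W511.IR

open Finset Pool.Agent.W890.SF Pool.Agent.W593.IR

theorem aux (V : Type) [Fintype V] [DecidableEq V] (k : ℕ) (F : Finset (Finset V))
    (hk : 1 ≤ k) (hU : Unif k F) : ∀ (n : ℕ) (y : V → ℝ),
    (univ.filter (fun v => y v ≠ 0)).card = n → (∀ v, 0 ≤ y v) → (∀ e ∈ F, 1 ≤ ∑ v ∈ e, y v) →
  ∃ y' : V → ℝ, (∀ v, 0 ≤ y' v) ∧ (∀ e ∈ F, 1 ≤ ∑ v ∈ e, y' v) ∧ ∑ v, y' v ≤ ∑ v, y v ∧
    ((univ.filter (fun v => y' v ≠ 0)).card : ℝ) ≤ k * ∑ v, y' v := by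
  intro n
  induction n using Nat.strong_induction_on with
  | _ n ih =>
    intro y hn h0 hc
    by_cases hle : ((univ.filter (fun v => y v ≠ 0)).card : ℝ) ≤ k * ∑ v, y v
    · exact ⟨y, h0, hc, le_refl _, hle⟩
    push Not at hle
    set S : Finset V := univ.filter (fun v => y v ≠ 0) with hS
    have hsum0 : 0 ≤ ∑ v, y v := Finset.sum_nonneg (fun v _ => h0 v)
    have hk0 : (0 : ℝ) < k := by exact_mod_cast hk
    have hScard : (0 : ℝ) < S.card := lt_of_le_of_lt (by positivity) hle
    have hSne : S.Nonempty := by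
      rw [← Finset.card_pos]; exact_mod_cast hScard
    obtain ⟨v0, hv0, hmin⟩ := Finset.exists_min_image S y hSne
    set m : ℝ := y v0 with hm
    have hmpos : 0 < m := by
      have : y v0 ≠ 0 := by
        have := hv0
        rw [hS, Finset.mem_filter] at this
        exact this.2
      exact lt_of_le_of_ne (h0 v0) (Ne.symm this)
    have hsumS : ∑ v ∈ S, y v = ∑ v, y v := by
      apply Finset.sum_subset (Finset.subset_univ S)
      intro v _ hv
      by_contra hne
      exact hv (by rw [hS, Finset.mem_filter]; exact ⟨Finset.mem_univ v, hne⟩)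
    have hmS : m * S.card ≤ ∑ v, y v := by
      rw [← hsumS]
      have := Finset.sum_le_sum (fun v hv => hmin v hv) (s := S) (f := fun _ => m) (g := y)
      simp only [Finset.sum_const, nsmul_eq_mul] at this
      linarith
    have hkm : (k : ℝ) * m < 1 := by
      by_contra hcon
      push Not at hcon
      have h1 : (S.card : ℝ) ≤ k * m * S.card := by nlinarith
      have h2 : (k : ℝ) * (m * S.card) ≤ k * ∑ v, y v := by gcongr
      linarith
    have hden : 0 < 1 - (k : ℝ) * m := by linarith
    let y1 : V → ℝ := fun v => if v ∈ S then (y v - m) / (1 - k * m) else 0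
    have hy1 : ∀ v, y1 v = if v ∈ S then (y v - m) / (1 - k * m) else 0 := fun v => rfl
    have hpos1 : ∀ v, 0 ≤ y1 v := by
      intro v
      rw [hy1]
      split_ifs with h
      · exact div_nonneg (by linarith [hmin v h]) hden.le
      · exact le_refl _
    have hsumgen : ∀ e : Finset V, ∑ v ∈ e, y1 v =
        (∑ v ∈ e, y v - m * ((e.filter (fun v => v ∈ S)).card : ℝ)) / (1 - k * m) := by
      intro e
      have h1 : ∑ v ∈ e, y1 v = ∑ v ∈ e.filter (fun v => v ∈ S), (y v - m) / (1 - k * m) := by
        rw [Finset.sum_filter]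
      have h2 : ∑ v ∈ e.filter (fun v => v ∈ S), y v = ∑ v ∈ e, y v := by
        apply Finset.sum_subset (Finset.filter_subset _ _)
        intro v hv hv'
        by_contra hne
        apply hv'
        rw [Finset.mem_filter]
        exact ⟨hv, by rw [hS, Finset.mem_filter]; exact ⟨Finset.mem_univ v, hne⟩⟩
      rw [h1, ← Finset.sum_div, Finset.sum_sub_distrib, h2, Finset.sum_const, nsmul_eq_mul]
      ring
    have hcov1 : ∀ e ∈ F, 1 ≤ ∑ v ∈ e, y1 v := by
      intro e he
      rw [hsumgen e, le_div_iff₀ hden]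
      have hcard : ((e.filter (fun v => v ∈ S)).card : ℝ) ≤ k := by
        have h1 : (e.filter (fun v => v ∈ S)).card ≤ e.card := Finset.card_filter_le _ _
        have h2 : e.card = k := hU e he
        rw [h2] at h1
        exact_mod_cast h1
      have := hc e he
      nlinarith
    have hsum1 : ∑ v, y1 v ≤ ∑ v, y v := by
      rw [hsumgen univ, div_le_iff₀ hden]
      have : (univ.filter (fun v => v ∈ S)) = S := by
        ext v; simp
      rw [this]
      nlinarith
    have hlt : (univ.filter (fun v => y1 v ≠ 0)).card < n := by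
      rw [← hn]
      apply Finset.card_lt_card
      rw [Finset.ssubset_iff_of_subset]
      · refine ⟨v0, hv0, ?_⟩
        rw [Finset.mem_filter]
        push Not
        intro _
        rw [hy1, if_pos hv0]
        simp [hm]
      · intro v hv
        rw [Finset.mem_filter] at hv
        by_contra hvS
        apply hv.2
        rw [hy1, if_neg hvS]
    obtain ⟨y', h1, h2, h3, h4⟩ := ih _ hlt y1 rfl hpos1 hcov1
    exact ⟨y', h1, h2, le_trans h3 hsum1, h4⟩

theorem minc : S_MINC := by
  intro V _ _ k F y hk hU h0 hc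
  exact aux V k F hk hU _ y rfl h0 hc

end Pool.Agent.W511.IR
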